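import Pool.Agent.Helper77.SO.St

/-!
# Project SO, module AS (helper51): contiguity at the merged vertex
-/

set_option autoImplicit false

namespace Pool.Agent.Helper51.SO.AS

open Equiv Equiv.Perm Pool.Agent.Helper35.PM Pool.Agent.Helper77.HY Pool.Agent.Helper77.OF4
open Pool.Agent.Helper77.SO

variable {V D : Type}

/-- values of a potential along a cycle with two jumps -/
theorem arc (f g : ℕ → ZMod 2) (N j : ℕ) (hj : 0 < j) (hjN : j < N)
    (hf : ∀ s < N, f (s + 1) = f s + g s) (h0 : g 0 = 1) (h1 : g j = 1)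
    (h2 : ∀ s, 0 < s → s < N → s ≠ j → g s = 0) :
    (∀ s, 1 ≤ s → s ≤ j → f s = f 0 + 1) ∧ ∀ s, j < s → s ≤ N → f s = f 0 := by
  have ha : ∀ s, 1 ≤ s → s ≤ j → f s = f 0 + 1 := by
    intro s hs
    induction s, hs using Nat.le_induction with
    | base => intro _; rw [show (1 : ℕ) = 0 + 1 from rfl, hf 0 (by omega), h0]
    | succ s hs ih =>
      intro hsj
      rw [hf s (by omega), ih (by omega), h2 s (by omega) (by omega) (by omega), add_zero]
  refine ⟨ha, ?_⟩
  intro s hs
  induction s, hs using Nat.le_induction with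
  | base =>
    intro _
    rw [show j.succ = j + 1 from rfl, hf j (by omega), ha j hj le_rfl, h1, zadd_self']
  | succ s hs ih =>
    intro hsN
    have hs' : j + 1 ≤ s := hs
    rw [hf s (by omega), ih (by omega), h2 s (by omega) (by omega) (by omega), add_zero]

/-- indicator function of a point -/
noncomputable def dl [DecidableEq D] (p d : D) : ZMod 2 := if d = p then 1 else 0

theorem minpos [Finite D] (π : Perm D) (d : D) : 0 < Function.minimalPeriod π d := by
  apply Function.minimalPeriod_pos_of_mem_periodicPts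
  refine ⟨orderOf π, orderOf_pos π, ?_⟩
  show π^[orderOf π] d = d
  rw [Equiv.Perm.iterate_eq_pow, pow_orderOf_eq_one]
  rfl

theorem pow_inj (π : Perm D) (d : D) {i j : ℕ} (hi : i < Function.minimalPeriod π d)
    (hj : j < Function.minimalPeriod π d) (h : (π ^ i) d = (π ^ j) d) : i = j := by
  have := Function.iterate_injOn_Iio_minimalPeriod (f := π) (x := d)
  apply this (Set.mem_Iio.mpr hi) (Set.mem_Iio.mpr hj)
  simpa only [Equiv.Perm.iterate_eq_pow] using h

theorem exists_lt [Finite D] {π : Perm D} {d p : D} (h : π.SameCycle d p) :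
    ∃ j < Function.minimalPeriod π d, (π ^ j) d = p := by
  obtain ⟨k, hk⟩ := h.exists_nat_pow_eq
  refine ⟨k % Function.minimalPeriod π d, Nat.mod_lt _ (minpos π d), ?_⟩
  have := Function.iterate_mod_minimalPeriod_eq (f := π) (x := d) (n := k)
  rw [Equiv.Perm.iterate_eq_pow, Equiv.Perm.iterate_eq_pow] at this
  rw [this, hk]

theorem cnt [Finite D] [DecidableEq D] (π : Perm D) (d p : D) [Decidable (π.SameCycle d p)] :
    ∑ j ∈ Finset.range (Function.minimalPeriod π d), dl p ((π ^ j) d) =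
      if π.SameCycle d p then 1 else 0 := by
  split_ifs with h
  · obtain ⟨j, hj, hjp⟩ := exists_lt h
    rw [Finset.sum_eq_single j]
    · rw [dl, if_pos hjp]
    · intro i hi hij
      rw [dl, if_neg]
      intro h1
      exact hij (pow_inj π d (Finset.mem_range.mp hi) hj (h1.trans hjp.symm))
    · intro h1
      exact absurd (Finset.mem_range.mpr hj) h1
  · apply Finset.sum_eq_zero
    intro j _
    rw [dl, if_neg]
    intro h1
    exact h ⟨(j : ℤ), by rw [zpow_natCast]; exact h1⟩

theorem main (hPP : Pool.Agent.Helper64.OF.StPP) : StAs := by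
  classical
  intro V D _ M W r' h1 h2 hpl h3 h4 hAF
  intro a b c e haW hAlt hca hba hrb hre
  have := Fintype.ofFinite D
  by_contra hne
  -- `r'` preserves `W`
  have hW1 : ∀ d, M.t d ∈ W → M.t (r' d) ∈ W := by
    intro d hd
    by_contra hcon
    have e1 : M.t (M.r.symm (r' d)) = M.t (r' d) := by
      conv_rhs => rw [← M.r.apply_symm_apply (r' d), M.t_r]
    have e2 : r' (M.r.symm (r' d)) = r' d := by
      rw [h3 _ (by rw [e1]; exact hcon), M.r.apply_symm_apply]
    have e3 := r'.injective e2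
    rw [e3] at e1
    rw [← e1] at hcon
    exact hcon hd
  have hW : ∀ n : ℕ, M.t ((r' ^ n) a) ∈ W := by
    intro n
    induction n with
    | zero => simpa using haW
    | succ n ih => rw [pow_succ', Perm.mul_apply]; exact hW1 _ ih
  obtain ⟨i, j, k, hi0, hij, hjk, hkN, hib, hjc, hke⟩ := hAlt
  have hbW : M.t b ∈ W := by rw [← hib]; exact hW i
  have hcW : M.t c ∈ W := by rw [← hjc]; exact hW j
  have heW : M.t e ∈ W := by rw [← hke]; exact hW k
  set v := M.t (M.ι a) with hv
  have hvW : v ∉ W := h1 a haW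
  -- the four darts
  have hac : a ≠ c := by
    intro h
    have : (r' ^ 0) a = (r' ^ j) a := by rw [hjc, pow_zero]; exact h
    have := pow_inj r' a (by omega) (by omega) this
    omega
  have hia : ∀ d, M.t d ∈ W → d ≠ M.ι a := fun d hd h => hvW (by rw [hv, ← h]; exact hd)
  have hic : ∀ d, M.t d ∈ W → d ≠ M.ι c := fun d hd h => hvW (by rw [← hca, ← h]; exact hd)
  have hiac : M.ι a ≠ M.ι c := fun h => hac (M.inv.injective h)
  let x : D → ZMod 2 := fun d => dl a d + dl (M.ι a) d + dl c d + dl (M.ι c) d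
  have hdl : ∀ p d, dl p (M.ι d) = dl (M.ι p) d := by
    intro p d
    unfold dl
    by_cases h : M.ι d = p
    · rw [if_pos h, if_pos (by rw [← h, M.inv])]
    · rw [if_neg h, if_neg (fun h' => h (by rw [h', M.inv]))]
  have hxι : ∀ d, x (M.ι d) = x d := by
    intro d
    show dl a (M.ι d) + dl (M.ι a) (M.ι d) + dl c (M.ι d) + dl (M.ι c) (M.ι d) = _
    rw [hdl, hdl, hdl, hdl, M.inv, M.inv]
    show _ = dl a d + dl (M.ι a) d + dl c d + dl (M.ι c) d
    ring
  have hx0 : ∀ d, d ≠ a → d ≠ c → d ≠ M.ι a → d ≠ M.ι c → x d = 0 := by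
    intro d q1 q2 q3 q4
    show dl a d + dl (M.ι a) d + dl c d + dl (M.ι c) d = 0
    unfold dl
    rw [if_neg q1, if_neg q2, if_neg q3, if_neg q4]
    simp
  have hxa : x a = 1 := by
    show dl a a + dl (M.ι a) a + dl c a + dl (M.ι c) a = 1
    unfold dl
    rw [if_pos rfl, if_neg (hia a haW), if_neg hac, if_neg (hic a haW)]
    simp
  have hxc : x c = 1 := by
    show dl a c + dl (M.ι a) c + dl c c + dl (M.ι c) c = 1
    unfold dl
    rw [if_neg hac.symm, if_neg (hia c hcW), if_pos rfl, if_neg (hic c hcW)]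
    simp
  have hxia : x (M.ι a) = 1 := by rw [hxι]; exact hxa
  have hxic : x (M.ι c) = 1 := by rw [hxι]; exact hxc
  -- `r'` is `M.r` outside `W`
  have hpow : ∀ d, M.t d ∉ W → ∀ n : ℕ, (r' ^ n) d = (M.r ^ n) d := by
    intro d hd n
    induction n with
    | zero => simp
    | succ n ih =>
      rw [pow_succ', Perm.mul_apply, ih, h3 _ (by rw [M.t_pow]; exact hd), pow_succ',
        Perm.mul_apply]
  have hsv : r'.SameCycle (M.ι a) (M.ι c) := by
    obtain ⟨n, hn⟩ := (M.trans (M.ι a) (M.ι c) hca.symm).exists_nat_pow_eq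
    exact ⟨(n : ℤ), by rw [zpow_natCast, hpow _ hvW, hn]⟩
  have hsW : r'.SameCycle a c := ⟨(j : ℤ), by rw [zpow_natCast]; exact hjc⟩
  -- the potential
  obtain ⟨u, hu⟩ := hPP D r' x (by
    intro d
    show ∑ s ∈ Finset.range (Function.minimalPeriod r' d), (dl a ((r' ^ s) d) +
      dl (M.ι a) ((r' ^ s) d) + dl c ((r' ^ s) d) + dl (M.ι c) ((r' ^ s) d)) = 0
    rw [Finset.sum_add_distrib, Finset.sum_add_distrib, Finset.sum_add_distrib, cnt, cnt, cnt, cnt]
    have q1 : r'.SameCycle d a ↔ r'.SameCycle d c := ⟨fun h => h.trans hsW, fun h => h.trans hsW.symm⟩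
    have q2 : r'.SameCycle d (M.ι a) ↔ r'.SameCycle d (M.ι c) :=
      ⟨fun h => h.trans hsv, fun h => h.trans hsv.symm⟩
    simp only [q1, q2]
    by_cases q3 : r'.SameCycle d c <;> by_cases q4 : r'.SameCycle d (M.ι c) <;>
      simp only [q3, q4, if_true, if_false] <;> decide)
  obtain ⟨y, hy1, hy2⟩ := hpl x u hxι hu
  -- values on the cycle of `W`
  obtain ⟨hA1, hA2⟩ := arc (fun s => y ((r' ^ s) a)) (fun s => x ((r' ^ s) a))
    (Function.minimalPeriod r' a) j (by omega) (by omega)
    (fun s _ => by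
      show y ((r' ^ (s + 1)) a) = y ((r' ^ s) a) + x ((r' ^ s) a)
      rw [pow_succ', Perm.mul_apply, hy1])
    (by show x ((r' ^ 0) a) = 1; rw [pow_zero]; exact hxa)
    (by show x ((r' ^ j) a) = 1; rw [hjc]; exact hxc)
    (by
      intro s hs0 hsN hsj
      show x ((r' ^ s) a) = 0
      apply hx0
      · intro h
        have := pow_inj r' a hsN (by omega : 0 < Function.minimalPeriod r' a)
          (by rw [pow_zero]; exact h)
        omega
      · intro h
        exact hsj (pow_inj r' a hsN (by omega) (h.trans hjc.symm))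
      · exact hia _ (hW s)
      · exact hic _ (hW s))
  have hyb : y b = y a + 1 := by
    have := hA1 i (by omega) (by omega)
    simp only [pow_zero] at this
    rw [hib] at this
    exact this
  have hye : y e = y a := by
    have := hA2 k (by omega) (by omega)
    simp only [pow_zero] at this
    rw [hke] at this
    exact this
  -- `y` is constant at the other vertices outside `W`
  have hconst : ∀ g g', M.t g ∉ W → M.t g ≠ v → M.t g = M.t g' → y g' = y g := by
    intro g g' hg hgv hgg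
    obtain ⟨n, hn⟩ := (M.trans g g' hgg).exists_nat_pow_eq
    rw [← hn]
    clear hn
    induction n with
    | zero => simp
    | succ n ih =>
      have ht : M.t ((M.r ^ n) g) = M.t g := M.t_pow g n
      have hx : x ((M.r ^ n) g) = 0 := by
        apply hx0
        · intro h; apply hg; rw [← ht, h]; exact haW
        · intro h; apply hg; rw [← ht, h]; exact hcW
        · intro h; apply hgv; rw [← ht, h]
        · intro h; apply hgv; rw [← ht, h]; exact hca
      rw [pow_succ', Perm.mul_apply, ← h3 _ (by rw [ht]; exact hg), hy1, hx, ih, add_zero]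
  -- walking in the forest graph
  have hwalk : ∀ (Y : ZMod 2) (p q : V) (w : (FG M.ι M.t W).Walk p q), q = v → p ≠ v →
      (∀ g, M.t g = p → y g = Y) → ∃ β, M.t β = v ∧ M.t (M.ι β) ∉ W ∧ y β = Y := by
    intro Y p q w
    induction w with
    | nil => intro hq hp; exact absurd hq hp
    | @cons p p' q hadj w ih =>
      intro hq hp hg
      obtain ⟨_, hpW, hp'W, hd⟩ := hadj
      obtain ⟨g, hg1, hg2⟩ : ∃ g, M.t g = p ∧ M.t (M.ι g) = p' := by
        rcases hd with ⟨d, hd1, hd2⟩ | ⟨d, hd1, hd2⟩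
        · exact ⟨d, hd1, hd2⟩
        · exact ⟨M.ι d, hd2, by rw [M.inv]; exact hd1⟩
      have hxg : x g = 0 := by
        apply hx0
        · intro h; apply hpW; rw [← hg1, h]; exact haW
        · intro h; apply hpW; rw [← hg1, h]; exact hcW
        · intro h; apply hp'W; rw [← hg2, h, M.inv]; exact haW
        · intro h; apply hp'W; rw [← hg2, h, M.inv]; exact hcW
      have hyg : y (M.ι g) = Y := by rw [hy2, hxg, add_zero]; exact hg g hg1
      by_cases hp' : p' = v
      · refine ⟨M.ι g, by rw [hg2]; exact hp', ?_, hyg⟩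
        rw [M.inv, hg1]; exact hpW
      · apply ih hq hp'
        intro g' hg'
        rw [hconst (M.ι g) g' (by rw [hg2]; exact hp'W) (by rw [hg2]; exact hp') (by rw [hg2, hg'])]
        exact hyg
  have hclaim : ∀ f, M.t f ∈ W → f ≠ a → f ≠ c → M.t (M.ι f) ≠ v →
      (FG M.ι M.t W).Reachable v (M.t (M.ι f)) →
      ∃ β, M.t β = v ∧ M.t (M.ι β) ∉ W ∧ y β = y f := by
    intro f hfW hfa hfc hfv hr
    obtain ⟨w⟩ := hr.symm
    apply hwalk (y f) _ _ w rfl hfv
    intro g hg
    rw [hconst (M.ι f) g (h1 f hfW) hfv hg.symm, hy2, hx0 f hfa hfc (hia f hfW) (hic f hfW),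
      add_zero]
  have hbne : ∀ s, 0 < s → s < Function.minimalPeriod r' a → s ≠ j →
      (r' ^ s) a ≠ a ∧ (r' ^ s) a ≠ c := by
    intro s hs0 hsN hsj
    constructor
    · intro h
      have := pow_inj r' a hsN (by omega : 0 < Function.minimalPeriod r' a)
        (by rw [pow_zero]; exact h)
      omega
    · intro h
      exact hsj (pow_inj r' a hsN (by omega) (h.trans hjc.symm))
  have hb' := hbne i (by omega) (by omega) (by omega)
  rw [hib] at hb'
  have he' := hbne k (by omega) (by omega) (by omega)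
  rw [hke] at he'
  obtain ⟨β, hβ1, hβ2, hβ3⟩ := hclaim b hbW hb'.1 hb'.2 hba hrb
  obtain ⟨ε, hε1, hε2, hε3⟩ := hclaim e heW he'.1 he'.2 hne hre
  -- the positions at `v`
  set N := Function.minimalPeriod M.r (M.ι a) with hN
  obtain ⟨j', hj'N, hj'c⟩ := exists_lt (M.trans (M.ι a) (M.ι c) hca.symm)
  obtain ⟨s, hsN, hsβ⟩ := exists_lt (M.trans (M.ι a) β hβ1.symm)
  obtain ⟨s', hs'N, hs'ε⟩ := exists_lt (M.trans (M.ι a) ε hε1.symm)
  rw [← hN] at hj'N hsN hs'N
  have hj'0 : j' ≠ 0 := by
    rintro rfl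
    rw [pow_zero] at hj'c
    exact hiac hj'c
  have hpos : ∀ (β : D) (s : ℕ), (M.r ^ s) (M.ι a) = β → M.t (M.ι β) ∉ W → s ≠ 0 ∧ s ≠ j' := by
    intro β s hs hβ
    constructor
    · rintro rfl
      rw [pow_zero] at hs
      apply hβ
      rw [← hs]
      show M.t (M.ι (M.ι a)) ∈ W
      rw [M.inv]; exact haW
    · rintro rfl
      rw [hj'c] at hs
      apply hβ
      rw [← hs, M.inv]; exact hcW
  obtain ⟨hs0, hsj⟩ := hpos β s hsβ hβ2
  obtain ⟨hs'0, hs'j⟩ := hpos ε s' hs'ε hε2
  have htv : ∀ n : ℕ, M.t ((M.r ^ n) (M.ι a)) = v := fun n => M.t_pow _ n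
  obtain ⟨hB1, hB2⟩ := arc (fun s => y ((M.r ^ s) (M.ι a))) (fun s => x ((M.r ^ s) (M.ι a)))
    N j' (by omega) hj'N
    (fun s _ => by
      show y ((M.r ^ (s + 1)) (M.ι a)) = y ((M.r ^ s) (M.ι a)) + x ((M.r ^ s) (M.ι a))
      rw [pow_succ', Perm.mul_apply, ← h3 _ (by rw [htv]; exact hvW), hy1])
    (by show x ((M.r ^ 0) (M.ι a)) = 1; rw [pow_zero]; exact hxia)
    (by show x ((M.r ^ j') (M.ι a)) = 1; rw [hj'c]; exact hxic)
    (by
      intro s hs0 hsN hsj
      show x ((M.r ^ s) (M.ι a)) = 0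
      apply hx0
      · intro h; apply hvW; rw [← htv s, h]; exact haW
      · intro h; apply hvW; rw [← htv s, h]; exact hcW
      · intro h
        have := pow_inj M.r (M.ι a) hsN (by omega : 0 < Function.minimalPeriod M.r (M.ι a))
          (by rw [pow_zero]; exact h)
        omega
      · intro h
        exact hsj (pow_inj M.r (M.ι a) hsN hj'N (h.trans hj'c.symm)))
  simp only [pow_zero, Perm.coe_one, id_eq] at hB1 hB2
  have hyne : y β ≠ y ε := by
    rw [hβ3, hε3, hyb, hye]
    generalize y a = z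
    revert z
    decide
  have hAltv : ∀ (β ε : D) (s s' : ℕ), (M.r ^ s) (M.ι a) = β → (M.r ^ s') (M.ι a) = ε →
      s ≠ 0 → s < j' → j' < s' → s' < N → M.t (M.ι β) ∉ W → M.t (M.ι ε) ∉ W → False := by
    intro β ε s s' hs hs' h0 hsj hjs hsN hβ hε
    apply hε
    apply hAF (M.ι a) β (M.ι c) ε hvW ⟨s, j', s', by omega, hsj, hjs, hsN, hs, hj'c, hs'⟩
    · rw [M.inv]; exact haW
    · exact hβ
    · rw [M.inv]; exact hcW
  rcases lt_or_gt_of_ne hsj with q | q
  · rcases lt_or_gt_of_ne hs'j with q' | q'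
    · apply hyne
      have e1 := hB1 s (by omega) (by omega)
      have e2 := hB1 s' (by omega) (by omega)
      rw [hsβ] at e1
      rw [hs'ε] at e2
      rw [e1, e2]
    · exact hAltv β ε s s' hsβ hs'ε hs0 q q' hs'N hβ2 hε2
  · rcases lt_or_gt_of_ne hs'j with q' | q'
    · exact hAltv ε β s' s hs'ε hsβ hs'0 q' q hsN hε2 hβ2
    · apply hyne
      have e1 := hB2 s (by omega) (by omega)
      have e2 := hB2 s' (by omega) (by omega)
      rw [hsβ] at e1
      rw [hs'ε] at e2
      rw [e1, e2]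

end Pool.Agent.Helper51.SO.AS
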